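import Pool.Agent.Helper61.ZMY.Dfx

/-! # ZOOMS OF THE LAST CLASS: visibility

`vsx_gz` : the clause `Vsx` (visibility, hereditary form) passes from a system to its zooms in frames over type-labels, if
the least carriers of the zoom are known to the least carriers of the system (`Knw`). Everything for one law. -/

set_option autoImplicit false
set_option linter.unusedSectionVars false

namespace Pool.Agent.Helper61.ZMY

open Finset Filter Topology Matrix Pool.Agent.Helper69.RK Pool.Agent.Helper31.EC Pool.Agent.Helper31.EC.Sp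
open Pool.Agent.Helper40.EL Pool.Agent.Helper89.LX Pool.Agent.Helper84.MT
open Pool.Agent.Helper49.MD Pool.Agent.Helper36.AM
open Pool.Agent.Helper29.MX
open Pool.Agent.Helper3.LF (Mon sp_dl sp_Sub)
open Pool.Agent.Helper18.TRF Pool.Agent.Helper18.MCU

noncomputable section

variable {S : Sp} {N : ℕ} {E E' : ℕ → ℕ} {ι : Type}

theorem h_six {L : Type*} [PM L] (y' y bb a1 a v : L) :
    h y' (a ⊔ v) ≤ h y' (y ⊔ bb) + (h y v + h bb ((v ⊔ y) ⊔ a1) + h a1 a) := by
  have b1 := h_triangle y' (y ⊔ bb) (a ⊔ v)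
  have b2 : h y' ((y ⊔ bb) ⊔ (a ⊔ v)) ≤ h y' (y ⊔ bb) := h_anti le_sup_left
  have b3 := h_chain y bb (a ⊔ v)
  have b4 : h y (a ⊔ v) ≤ h y v := h_anti le_sup_right
  have b5 := h_triangle bb a1 (y ⊔ (a ⊔ v))
  have b6 : h bb (a1 ⊔ (y ⊔ (a ⊔ v))) ≤ h bb ((v ⊔ y) ⊔ a1) := by
    apply h_anti
    refine sup_le (sup_le ?_ ?_) le_sup_left
    · exact le_sup_right.trans (le_sup_right.trans le_sup_right)
    · exact le_sup_left.trans le_sup_right
  have b7 : h a1 (y ⊔ (a ⊔ v)) ≤ h a1 a := h_anti (le_sup_left.trans le_sup_right)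
  linarith

/-- the least carriers of the zoom are known to the least carriers of the system -/
def Knw (w : Fin N → ℝ) (s : MSys S N E ι) (l : Lab S) (c e : ℝ) (he : 0 < e) (t : MSys (l.ovr e he) N E' ι) : Prop :=
  ∀ b : ℝ, 0 < b → (∀ i, w i * b < 1) → ∀ X, Mc t (rbot (l.ovr e he)) w b X → ∀ Y, Mc s (rbot S) w (c + e * b) Y →
    Nul S fun k => h (fc (X k) : FL ((l.ovr e he).F k)) (fc (Setoid.comap (l k).p.π (Y k)))

/-- the identity frame of the trivial label -/
def frm0 (Q : S.VV N) : Frm Q (fun k => FLab.triv (S.F k)) fun _ => 0 where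
  X := (Lab.pj fun k => FLab.triv (S.F k)).vv Q
  P := fun _ _ _ => 0
  tri := fun k ω j i hi => by
    rw [MvPolynomial.vars_0] at hi
    exact absurd hi (Finset.notMem_empty i)
  red := fun k ω j a ha => by
    rw [MvPolynomial.support_zero] at ha
    exact absurd ha (Finset.notMem_empty a)
  fn := Eventually.of_forall fun _ _ _ _ _ _ _ => rfl
  bd := ⟨fun _ => 0, S.Sub_const le_rfl, Eventually.of_forall fun k ω _ j a => by
    rw [MvPolynomial.coeff_zero, abs_zero]⟩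
  pt := ⟨fun _ => 0, S.Sub_const le_rfl, Eventually.of_forall fun k ω _ j => by
    rw [map_zero, zero_add, S.dl_zero, one_mul, sub_self, abs_zero, zero_mul]⟩

theorem tlb_triv (s : MSys S N E ι) (c : ℝ) : TLb s c (fun k => FLab.triv (S.F k)) := Lab.DMf_triv _

/-- **VISIBILITY OF THE ZOOM** -/
theorem vsx_gz [Finite ι] {M : ℕ} {s : MSys S (M + 1) E ι} {w : Fin (M + 1) → ℝ} (hw : ∀ i, 1 ≤ w i) {c e : ℝ}
    (hc : 0 ≤ c) {he : 0 < e} (hwe : ∀ j, w j * c + e ≤ 1) {l : Lab S} (f : Frm s.Q l fun j => w j * c)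
    (hl : TLb s c l) {t : MSys (l.ovr e he) (M + 1) E' ι} (ht : Gz s l c e he f.X t) (tot : Tot w s (rbot S))
    (car : Car w s (rbot S)) (vsx : Vsx w s (rbot S)) (hk : Knw w s l c e he t) : Vsx w t (rbot (l.ovr e he)) := by
  intro b b' hb hbb hwb' X X' hX hX' g e' he' hwe' hgr
  have hwb : ∀ i, w i * b < 1 := fun i => lt_of_le_of_lt
    (mul_le_mul_of_nonneg_left hbb (zero_le_one.trans (hw i))) (hwb' i)
  have hb1 : b ≤ 1 := by nlinarith [hw 0, hwb 0]
  have hb0' : 0 ≤ b' := hb.trans hbb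
  rcases hb0'.eq_or_lt with h0 | hpos
  · -- window `0`
    subst h0
    have h1 := hX'.min (fun k => FLab.triv ((l.ovr e he).F k)) ((tlb_iff t 0 _).mpr (tlb_triv t 0)) ⟨by
      have h2 : (fun j : Fin (M + 1) => w j * 0) = fun _ => 0 := funext fun j => mul_zero _
      rw [h2]
      exact frm0 t.Q⟩
    refine h1.of_le (Eventually.of_forall fun k => h_nonneg _ _) (Eventually.of_forall fun k => ?_)
    have h3 : h ((FLab.triv ((l.ovr e he).F k)).p.map (fc (X' k))) (FLab.triv ((l.ovr e he).F k)).v =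
      h (fc (X' k) : FL ((l.ovr e he).F k)) (fc ⊤) := rfl
    have h4 : h ((Lab.ofZ X k).p.map (fc (X' k))) ((Lab.ofZ X k).v ⊔ fc (Setoid.ker (g.X.cellv e' k))) =
      h (fc (X' k) : FL ((l.ovr e he).F k)) (fc (X k) ⊔ fc (Setoid.ker (g.X.cellv e' k))) := rfl
    rw [h3, h4, fc_top]
    exact h_anti bot_le
  · obtain ⟨F, K, hK, hF⟩ := exists_cmf hw hc hb (fun j => (hwb j).le) f ht g
    have hc' : 0 ≤ c + e * b := add_nonneg hc (mul_nonneg he.le hb)
    have hwc' : ∀ i, w i * (c + e * b) < 1 := fun i => by nlinarith [hwe i, hwb i]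
    have hc2 : 0 ≤ c + e * b' := add_nonneg hc (mul_nonneg he.le hb0')
    have hwc2 : ∀ i, w i * (c + e * b') < 1 := fun i => by nlinarith [hwe i, hwb' i]
    have hr : 0 < e * e' := mul_pos he he'
    have hwr : ∀ i, w i * (c + e * b) + e * e' ≤ 1 := fun i => by nlinarith [hwe i, hwe' i]
    have hr1 : e * e' ≤ 1 := by nlinarith [hwr 0, hw 0]
    obtain ⟨Y, hY⟩ := car _ hc' hwc'
    obtain ⟨Y', hY'⟩ := car _ hc2 hwc2
    obtain ⟨f'⟩ := hY.fr
    have hL : TLb s (c + e * b) (l.comp e he (Lab.ofZ X)) := tlb_comp ht hl hb hb1 ((tlb_iff t b _).mp hX.kl)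
    have hL' : TLb s (c + e * b) (ad (l.comp e he (Lab.ofZ X)) Y) := tlb_ad hL ((tlb_iff s _ _).mp hY.kl)
    have hcel := cel_klb (R := rbot S) (pt_bot s) ((tlb_iff s _ _).mpr hL') hc' hw (tot _ hc' hwc').symm.le
      (frx (adl (l.comp e he (Lab.ofZ X)) Y) F) (frx (adr (l.comp e he (Lab.ofZ X)) Y) f') hr hr1 hwr le_rfl
    have hmin := hY.min _ ((tlb_iff s _ _).mpr hL) ⟨F⟩
    have hnear := near_cell (L := l.comp e he (Lab.ofZ X)) (cpt (Lab.ofZ X) g.X) F.X (r := e * e') hK (by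
      filter_upwards [hF, hK.1] with k hk hK0 ω hω j
      refine (hk ω hω j).trans (mul_le_mul_of_nonneg_left (S.dl_anti ?_ k) hK0)
      have := mul_le_mul_of_nonneg_left (hwe' j) he.le
      linarith)
    have hvis := vsx _ _ hc' (show c + e * b ≤ c + e * b' by nlinarith) hwc2 Y Y' hY hY' f' (e * e') hr hwr (fun i => by
      have h1 := mul_lt_mul_of_pos_left (hgr i) he
      have h2 : w i * (c + e * b' - (c + e * b)) = e * (w i * (b' - b)) := by ring
      rw [h2]
      exact h1)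
    have hkn := hk b' hpos hwb' X' hX' Y' hY'
    have hN := ((hkn.add hvis).add ((hmin.add hcel).add hnear))
    refine (Lab.nul_over l e he).mpr (hN.of_le (Eventually.of_forall fun k => h_nonneg _ _)
      (Eventually.of_forall fun k => ?_))
    rw [← cpt_cell (Lab.ofZ X) g.X e' k]
    have a1 := h_triangle' (fc (X' k) : FL ((l.ovr e he).F k)) (fc (Setoid.comap (l k).p.π (Y' k)))
      (fc (Setoid.ker ((cpt (Lab.ofZ X) g.X).cellv (e * e') k)) ⊔ fc (X k))
    have a2 := h_cmp (Lab.ofZ X) k (Setoid.comap (l k).p.π (Y' k))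
      (Setoid.ker ((cpt (Lab.ofZ X) g.X).cellv (e * e') k))
    have a3 := h_six (((l.comp e he (Lab.ofZ X)) k).p.map (fc (Y' k))) (((l.comp e he (Lab.ofZ X)) k).p.map (fc (Y k)))
      (((l.comp e he (Lab.ofZ X)) k).p.map (fc (Setoid.ker (f'.X.cellv (e * e') k))))
      (fc (Setoid.ker (F.X.cellv (e * e') k))) (fc (Setoid.ker ((cpt (Lab.ofZ X) g.X).cellv (e * e') k)) :
      FL ((l.comp e he (Lab.ofZ X)) k).T) ((l.comp e he (Lab.ofZ X)) k).v
    have a4 : h (((l.comp e he (Lab.ofZ X)) k).p.map (fc (Y' k))) (((l.comp e he (Lab.ofZ X)) k).p.map (fc (Y k)) ⊔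
        ((l.comp e he (Lab.ofZ X)) k).p.map (fc (Setoid.ker (f'.X.cellv (e * e') k)))) =
          h ((Lab.ofZ Y k).p.map (fc (Y' k))) ((Lab.ofZ Y k).v ⊔ fc (Setoid.ker (f'.X.cellv (e * e') k))) := by
      rw [← FPj.map_sup]
      exact ((l.comp e he (Lab.ofZ X)) k).p.h_map _ _
    rw [a4] at a3
    have a5 : h ((Lab.ofZ X k).p.map (fc (X' k))) ((Lab.ofZ X k).v ⊔
        fc (Setoid.ker ((cpt (Lab.ofZ X) g.X).cellv (e * e') k))) =
        h (fc (X' k) : FL ((l.ovr e he).F k)) (fc (Setoid.ker ((cpt (Lab.ofZ X) g.X).cellv (e * e') k)) ⊔ fc (X k)) := by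
      rw [sup_comm]
      rfl
    have a6 : h (fc (Setoid.comap (l k).p.π (Y' k)) : FL ((l.ovr e he).F k))
        (fc (Setoid.ker ((cpt (Lab.ofZ X) g.X).cellv (e * e') k)) ⊔ fc (X k)) ≤ _ := a2.le.trans a3
    rw [add_assoc]
    exact a5.le.trans (a1.trans (add_le_add le_rfl a6))

end

end Pool.Agent.Helper61.ZMY
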