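import Pool.Agent.Helper61.ZMY.Vsx
import Pool.Agent.Helper85.ZMY.Frq
import Pool.Agent.Helper85.ZMY.Imx
import Pool.Agent.Helper52.MW.Ime

/-! # ZOOMS OF THE LAST CLASS: the clauses `Dfx`, `Vsx` on all events

`knw_gz` : the least carriers of the zoom are known to the least carriers of the system (from helper85's frames of zooms);
`dfx_all`, `vsx_all` : the clauses `Dfx`, `Vsx` of `ZCLX`. -/

set_option autoImplicit false
set_option linter.unusedSectionVars false

namespace Pool.Agent.Helper61.ZMY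

open Finset Filter Topology Matrix Pool.Agent.Helper69.RK Pool.Agent.Helper31.EC Pool.Agent.Helper31.EC.Sp
open Pool.Agent.Helper40.EL Pool.Agent.Helper89.LX Pool.Agent.Helper84.MT
open Pool.Agent.Helper49.MD Pool.Agent.Helper36.AM
open Pool.Agent.Helper29.MX
open Pool.Agent.Helper3.LF (Mon sp_dl sp_Sub)
open Pool.Agent.Helper7.RD (Clw)
open Pool.Agent.Helper81.CPY (ple_im)
open Pool.Agent.Helper85.ZMY (frq_lit unl ptl imx imx_ovr ptl_pr imx_nul imx_up frmx)

noncomputable section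

variable {S T : Sp} {N M : ℕ} {E E' : ℕ → ℕ} {ι : Type}

/-- **THE LEAST CARRIERS OF THE ZOOM** are known to the least carriers of the system -/
theorem knw_gz [Finite ι] {s : MSys S (M + 1) E ι} {w : Fin (M + 1) → ℝ} (hw : ∀ i, 1 ≤ w i) {c e : ℝ}
    (hc : 0 ≤ c) {he : 0 < e} (hwe : ∀ j, w j * c + e ≤ 1) {l : Lab S} (f : Frm s.Q l fun j => w j * c)
    (hl : TLb s c l) {t : MSys (l.ovr e he) (M + 1) E' ι} (ht : Gz s l c e he f.X t) (tot : Tot w s (rbot S))
    (car : Car w s (rbot S)) : Knw w s l c e he t := by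
  intro b hb hwb X hX Y hY
  have hb1 : b ≤ 1 := by nlinarith [hw 0, hwb 0]
  obtain ⟨hf⟩ := hY.fr
  obtain ⟨V, -, h1, h2, h3⟩ := frq_lit hw hc hwe hl f ht
    (fun z hz hwz => by have := tot z hz hwz; exact this.symm.le)
    (fun z hz hwz => by
      obtain ⟨X, hX⟩ := car z hz hwz
      exact ⟨X, (tlb_iff s z _).mp hX.kl, hX.fr⟩) hb hb1 hwb ((tlb_iff s _ _).mp hY.kl) hf
  have h4 := hX.min (Lab.ofZ V) ((tlb_iff t b _).mpr h2) h3
  have h5 : Nul (l.ovr e he) fun k => h (fc (X k) : FL ((l.ovr e he).F k)) (fc (V k)) := h4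
  refine (Lab.nul_over l e he).mp ((h5.add h1).of_le (Eventually.of_forall fun k => h_nonneg _ _)
    (Eventually.of_forall fun k => ?_))
  have a1 := h_triangle' (fc (X k) : FL ((l.ovr e he).F k)) (fc (V k)) (fc (Setoid.comap (l k).p.π (Y k)))
  exact a1

/-- a zoom on an event of an extension is a zoom over the restricted label -/
theorem gz_imx {s : MSys S N E ι} {l : Lab S} {c e : ℝ} {he : 0 < e} {X : l.sp.VV N} {t : MSys (l.ovr e he) N E' ι}
    (ht : Gz s l c e he X t) (p : Pj T (l.ovr e he)) (A : ∀ k, (T.F k).Ω → Prop) (hA : 0 < ul (T.pr A)) :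
    Gz (s.im ((ptl p).comp l.pj) A hA) (imx l (ptl p) A) c e he (VV.im (ptl p) A X) (t.im p A hA) := by
  refine ⟨?_, ?_⟩
  · obtain ⟨K, hK, h⟩ := ht.pt
    refine ⟨K, hK, ?_⟩
    filter_upwards [h] with k hk ω hω
    exact hk ω (FSp.im_supp (p.fp k) (A k) ω hω)
  · intro b i h0 h1
    have h2 := ht.win b i h0 h1
    have h3 := imx_up p A ((s.lf i).win (c + e * b))
    have h4 := ple_im p A hA h2.1
    have h5 := ple_im p A hA h2.2
    rw [← h3] at h4 h5
    exact ⟨h4, h5⟩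

/-- type-labels on events of extensions of their space -/
theorem tlb_imx {s : MSys S N E ι} {l : Lab S} {c e : ℝ} {he : 0 < e} (hl : TLb s c l) (p : Pj T (l.ovr e he))
    (A : ∀ k, (T.F k).Ω → Prop) (hA : 0 < ul (T.pr A)) :
    TLb (s.im ((ptl p).comp l.pj) A hA) c (imx l (ptl p) A) := fun i =>
  imx_nul (X := (s.lf i).win c) (ptl p) A hA (hl i)

variable [Finite ι] {s : MSys S (M + 1) E ι} {w : Fin (M + 1) → ℝ} {c e : ℝ} {he : 0 < e} {l : Lab S}

/-- **DEFICIT of zooms, on all events** -/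
theorem dfx_all {ρ : ℝ} (tot : AllE (fun _ t R => Tot w t R) S s (rbot S)) (car : AllE (fun _ t R => Car w t R) S s (rbot S))
    (dfx : AllE (fun _ t R => Dfx w ρ t R) S s (rbot S)) (hw : ∀ i, 1 ≤ w i) (hc : 0 ≤ c)
    (hwe : ∀ j, w j * c + e ≤ 1) (f : Frm s.Q l fun j => w j * c) (hl : TLb s c l) {t : MSys (l.ovr e he) (M + 1) E' ι}
    (ht : Gz s l c e he f.X t) : AllE (fun _ t R => Dfx w ρ t R) (l.ovr e he) t (rbot (l.ovr e he)) := by
  intro T p A hA
  exact dfx_gz hw hc hwe (frmx (ptl p) A f) (tlb_imx hl p A hA) (gz_imx ht p A hA)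
    (tot (unl p) ((ptl p).comp l.pj) A hA) (car (unl p) ((ptl p).comp l.pj) A hA)
    (dfx (unl p) ((ptl p).comp l.pj) A hA)

/-- **VISIBILITY of zooms, on all events** -/
theorem vsx_all (tot : AllE (fun _ t R => Tot w t R) S s (rbot S)) (car : AllE (fun _ t R => Car w t R) S s (rbot S))
    (vsx : AllE (fun _ t R => Vsx w t R) S s (rbot S)) (hw : ∀ i, 1 ≤ w i) (hc : 0 ≤ c)
    (hwe : ∀ j, w j * c + e ≤ 1) (f : Frm s.Q l fun j => w j * c) (hl : TLb s c l) {t : MSys (l.ovr e he) (M + 1) E' ι}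
    (ht : Gz s l c e he f.X t) : AllE (fun _ t R => Vsx w t R) (l.ovr e he) t (rbot (l.ovr e he)) := by
  intro T p A hA
  have h1 := tot (unl p) ((ptl p).comp l.pj) A hA
  have h2 := car (unl p) ((ptl p).comp l.pj) A hA
  exact vsx_gz hw hc hwe (frmx (ptl p) A f) (tlb_imx hl p A hA) (gz_imx ht p A hA) h1 h2
    (vsx (unl p) ((ptl p).comp l.pj) A hA)
    (knw_gz hw hc hwe (frmx (ptl p) A f) (tlb_imx hl p A hA) (gz_imx ht p A hA) h1 h2)

/-- both clauses from the clauses of the last class -/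
theorem Clw.dfx_vsx {v : ℕ} {ρ : ℝ} (hcl : Clw v w ρ s) (hw : ∀ i, 1 ≤ w i) (hc : 0 ≤ c)
    (hwe : ∀ j, w j * c + e ≤ 1) (f : Frm s.Q l fun j => w j * c) (hl : TLb s c l) {t : MSys (l.ovr e he) (M + 1) E' ι}
    (ht : Gz s l c e he f.X t) : AllE (fun _ t R => Dfx w ρ t R) (l.ovr e he) t (rbot (l.ovr e he)) ∧
      AllE (fun _ t R => Vsx w t R) (l.ovr e he) t (rbot (l.ovr e he)) :=
  ⟨dfx_all hcl.tot hcl.car hcl.dfx hw hc hwe f hl ht, vsx_all hcl.tot hcl.car hcl.vsx hw hc hwe f hl ht⟩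

end

end Pool.Agent.Helper61.ZMY
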