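import Pool.Agent.Helper7.RD.Srr
import Pool.Agent.Helper18.MCU.Ind
import Pool.Agent.Helper40.EL.D5

/-! # ZOOMS OF THE LAST CLASS: deficit

`dfx_gz` : the clause `Dfx` (deficit in the boxes of the least carriers) passes from a system to its zooms in frames over
type-labels. Everything for one law. -/

set_option autoImplicit false
set_option linter.unusedSectionVars false

namespace Pool.Agent.Helper61.ZMY

open Finset Filter Topology Matrix Pool.Agent.Helper69.RK Pool.Agent.Helper31.EC Pool.Agent.Helper31.EC.Sp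
open Pool.Agent.Helper40.EL Pool.Agent.Helper89.LX Pool.Agent.Helper84.MT
open Pool.Agent.Helper49.MD Pool.Agent.Helper36.AM
open Pool.Agent.Helper29.MX
open Pool.Agent.Helper3.LF (Mon sp_dl sp_Sub)
open Pool.Agent.Helper18.TRF Pool.Agent.Helper18.MCU

noncomputable section

variable {S : Sp} {N : ℕ} {E E' : ℕ → ℕ} {ι : Type}

theorem tlb_mono {s : MSys S N E ι} {l : Lab S} {a b : ℝ} (hab : a ≤ b) (h : TLb s a l) : TLb s b l :=
  (tlb_iff s b l).mp (Pool.Agent.Helper7.RD.KLb_mono (Eventually.of_forall fun _ => le_rfl) hab ((tlb_iff s a l).mpr h))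

/-- type-labels of the zoom are type-labels of the system -/
theorem tlb_comp {s : MSys S N E ι} {l : Lab S} {c e : ℝ} {he : 0 < e} {X : l.sp.VV N} {t : MSys (l.ovr e he) N E' ι}
    (ht : Gz s l c e he X t) (hl : TLb s c l) {b : ℝ} (hb : 0 ≤ b) (hb1 : b ≤ 1) {y : Lab (l.ovr e he)}
    (hy : TLb t b y) : TLb s (c + e * b) (l.comp e he y) :=
  Lab.DMf.comp (A := fun i => (s.lf i).win (c + e * b))
    (tlb_mono (le_add_of_nonneg_right (mul_nonneg he.le hb)) hl) (Lab.DMf.mono hy fun i => ⟨i, (ht.win b i hb hb1).1⟩)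

/-! ### the label refined by a partition of the space -/

/-- the label `L` refined by a partition of the space -/
abbrev ad (L : Lab S) (X : ∀ k, Setoid (S.F k).Ω) : Lab S := fun k => (L k).add (X k)

/-- the refined label refines the label -/
def adl (L : Lab S) (X : ∀ k, Setoid (S.F k).Ω) : Rfn (ad L X) L where
  q := fun k => ⟨fun ω => ω, (FLab.triv (L k).T).p.law, fun _ _ _ _ => Iff.rfl⟩
  hn := fun _ => rfl
  pr := fun _ _ _ => rfl
  lb := fun _ _ _ _ _ _ h => h.1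

/-- the refined label refines the partition -/
def adr (L : Lab S) (X : ∀ k, Setoid (S.F k).Ω) : Rfn (ad L X) (Lab.ofZ X) where
  q := fun k => (L k).p
  hn := fun k => (L k).hn
  pr := fun _ _ _ => rfl
  lb := fun _ _ _ _ _ _ h => h.2

theorem tlb_ad {s : MSys S N E ι} {c : ℝ} {L : Lab S} (hL : TLb s c L) {X : ∀ k, Setoid (S.F k).Ω}
    (hX : TLb s c (Lab.ofZ X)) : TLb s c (ad L X) := by
  intro i
  have h2 : Nul S fun k => h (fc (X k)) ((s.lf i).win c k) := by
    refine (hX i).congr fun k => ?_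
    beta_reduce
    rw [Lab.ofZ_leak]
  exact ((hL i).add h2).of_le (Eventually.of_forall fun k => FLab.leak_nonneg _ _)
    (Eventually.of_forall fun k => FLab.add_leak_le _ _ _)

/-! ### near points -/

theorem abs_sub_le_of_floor {δ x y : ℝ} (hδ : 0 < δ) (h : ⌊x / δ⌋ = ⌊y / δ⌋) : |x - y| ≤ δ := by
  have h1 := Int.floor_le (x / δ)
  have h2 := Int.lt_floor_add_one (x / δ)
  have h3 := Int.floor_le (y / δ)
  have h4 := Int.lt_floor_add_one (y / δ)
  rw [h] at h1 h2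
  rw [le_div_iff₀ hδ] at h1 h3
  rw [div_lt_iff₀ hδ] at h2 h4
  rw [abs_le]
  constructor <;> nlinarith

/-- the cells of near points -/
theorem near_cell {L : Lab S} {m : ℕ} (y y' : L.sp.VV m) {r : ℝ} {K : ℕ → ℝ} (hK : S.Sub K)
    (hh : ∀ᶠ k in UF, ∀ ω : (L k).T.Ω, (L k).T.μ ω ≠ 0 → ∀ j, |y'.v k ω j - y.v k ω j| ≤ K k * S.dl r k) :
    Nul S fun k => h (fc (Setoid.ker (y'.cellv r k)) : FL (L k).T) (fc (Setoid.ker (y.cellv r k))) := by
  have hdl : ∀ k, L.sp.dl r k = S.dl r k := fun k => sp_dl L r k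
  have h1 : PLe (S := L.sp) (fun k => fc (Setoid.ker (y'.cellv r k))) (fun k => fc (Setoid.ker (y.cellv r k))) := by
    refine PLe_cell (S := L.sp) y' r (fun k => Setoid.ker (y.cellv r k)) (fun k => K k + K k + 1)
      ((sp_Sub L).mpr ((hK.add hK).add (S.Sub_const zero_le_one))) ?_
    filter_upwards [hh] with k hk ω ω' a b _ c i
    have h2 : |y.v k ω i - y.v k ω' i| ≤ L.sp.dl r k := abs_sub_le_of_floor (L.sp.dl_pos r k) (congrFun c i)
    have h3 := hk ω a i
    have h4 := hk ω' b i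
    rw [hdl] at h2 ⊢
    rw [abs_le] at h2 h3 h4 ⊢
    constructor <;> nlinarith
  have h6 : Nul L.sp fun k => h (fc (Setoid.ker (y'.cellv r k)) : FL (L k).T) (fc (Setoid.ker (y.cellv r k))) := h1
  have h7 : (fun k => h (fc (Setoid.ker (y'.cellv r k)) : FL (L k).T) (fc (Setoid.ker (y.cellv r k))) / (L.sp.F k).n) =
      fun k => h (fc (Setoid.ker (y'.cellv r k)) : FL (L k).T) (fc (Setoid.ker (y.cellv r k))) / (S.F k).n :=
    funext fun k => by
      have h5 : (L.sp.F k).n = (S.F k).n := (L k).hn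
      rw [h5]
  unfold Nul at h6 ⊢
  rw [h7] at h6
  exact h6

/-! ### the composed label and its frame -/

section cmp
variable {l : Lab S} {e : ℝ} {he : 0 < e}

/-- a point over the second label as a point over the composed label -/
def cpt {m : ℕ} (y : Lab (l.ovr e he)) (X : y.sp.VV m) : (l.comp e he y).sp.VV m where
  v := fun k (ω : (y k).T.Ω) => X.v k ω
  bd := by
    obtain ⟨K, hK, hx⟩ := X.bd
    exact ⟨K, (sp_Sub _).mpr ((ovr_Sub l e he).mp ((sp_Sub y).mp hK)), hx⟩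

theorem cpt_cell {m : ℕ} (y : Lab (l.ovr e he)) (X : y.sp.VV m) (r : ℝ) (k : ℕ) :
    ((cpt y X).cellv (e * r) k : (y k).T.Ω → Fin m → ℤ) = X.cellv r k := by
  funext ω i
  have h1 : (l.comp e he y).sp.dl (e * r) k = S.dl (e * r) k := sp_dl _ _ _
  have h2 : y.sp.dl r k = S.dl (e * r) k := (sp_dl y r k).trans (ovr_dl l e he r k)
  show ⌊X.v k ω i / (l.comp e he y).sp.dl (e * r) k⌋ = ⌊X.v k ω i / y.sp.dl r k⌋
  rw [h1, h2]

/-- informations over the second label are informations over the composed label -/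
theorem h_cmp (y : Lab (l.ovr e he)) (k : ℕ) (A B : Setoid (y k).T.Ω) :
    h (fc A : FL (y k).T) (fc B ⊔ (y k).v) =
      h (fc (F := ((l.comp e he y) k).T) A) (fc (F := ((l.comp e he y) k).T) B ⊔ ((l.comp e he y) k).v) := by
  have h1 := ((l k).cr e he (y k)).h_map (fc A) (fc B ⊔ fc (y k).V)
  have h2 : ((l.comp e he y) k).v = (fc (Setoid.comap (y k).p.π (l k).V) : FL ((l.comp e he y) k).T) ⊔
      (fc (y k).V : FL ((l.comp e he y) k).T) := rfl
  rw [h2]
  refine h1.trans ?_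
  rw [sup_assoc]
  exact congrArg (fun z => h (fc (F := ((l.comp e he y) k).T) A) (fc (F := ((l.comp e he y) k).T) B ⊔ z))
    (sup_comm _ _)

theorem h_cmp0 (y : Lab (l.ovr e he)) (k : ℕ) (A : Setoid (y k).T.Ω) :
    h (fc A : FL (y k).T) (y k).v = h (fc (F := ((l.comp e he y) k).T) A) ((l.comp e he y) k).v := by
  have h1 := ((l k).cr e he (y k)).h_map (fc A) (fc (y k).V)
  have h2 : ((l.comp e he y) k).v = (fc (Setoid.comap (y k).p.π (l k).V) : FL ((l.comp e he y) k).T) ⊔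
      (fc (y k).V : FL ((l.comp e he y) k).T) := rfl
  rw [h2]
  exact h1.trans (congrArg (fun z => h (fc (F := ((l.comp e he y) k).T) A) z) (sup_comm _ _))

/-- THE COMPOSED FRAME (helper18) -/
theorem exists_cmf {s : MSys S N E ι} {w : Fin N → ℝ} (hw : ∀ i, 1 ≤ w i) {c b : ℝ} (hc : 0 ≤ c) (hb : 0 ≤ b)
    (hwb : ∀ j, w j * b ≤ 1) (f : Frm s.Q l fun j => w j * c) {t : MSys (l.ovr e he) N E' ι} (ht : Gz s l c e he f.X t)
    {y : Lab (l.ovr e he)} (g : Frm t.Q y fun j => w j * b) :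
    ∃ (F : Frm s.Q (l.comp e he y) fun j => w j * (c + e * b)) (K : ℕ → ℝ), S.Sub K ∧ ∀ᶠ k in UF, ∀ ω : (y k).T.Ω,
      (y k).T.μ ω ≠ 0 → ∀ j, |F.X.v k ω j - g.X.v k ω j| ≤ K k * S.dl (e * (1 - w j * b)) k := by
  obtain ⟨W, hW⟩ := exists_W w
  have hw0 : ∀ j, 0 < w j := fun j => one_pos.trans_le (hw j)
  have hd : ∀ k ω j, (f.P k ω j).totalDegree ≤ W := fun k ω j => frm_deg0 f hc hw hW k ω j
  have hd' : ∀ k ω j, (g.P k ω j).totalDegree ≤ W := fun k ω j => frm_deg0 g hb hw hW k ω j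
  obtain ⟨K, hK, h1⟩ := ccx_near f g hb hw0 hd' ht.pt
  exact ⟨cmf f g hc hb hw0 hwb hd hd' ht.pt, K, hK, h1⟩

end cmp

theorem ub_cell {T : Sp} {m : ℕ} (y : T.VV m) (r : ℝ) (B : ∀ k, Setoid (T.F k).Ω) :
    UB (fun k => h (fc (Setoid.ker (y.cellv r k))) (fc (B k)) / (T.F k).n) := by
  have h1 : UB (T.rt (fun k => Setoid.ker (y.cellv r k)) B) := Sp.UB_rt (y.bdd r).toInf B
  have h2 : (fun k => h (fc (Setoid.ker (y.cellv r k))) (fc (B k)) / (T.F k).n) =
      T.rt (fun k => Setoid.ker (y.cellv r k)) B := funext fun k => by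
    rw [h_fc]
    rfl
  rw [h2]
  exact h1

theorem h_five {L : Type*} [PM L] (a a1 bb x v : L) :
    h a v ≤ h bb x + (h a a1 + h x v + h a1 ((v ⊔ x) ⊔ bb)) := by
  have b1 := h_triangle a a1 v
  have b2 : h a (a1 ⊔ v) ≤ h a a1 := h_anti le_sup_left
  have b3 := h_triangle a1 x v
  have b4 := h_triangle a1 bb (x ⊔ v)
  have b5 : h bb (x ⊔ v) ≤ h bb x := h_anti le_sup_left
  have b6 : bb ⊔ (x ⊔ v) = (v ⊔ x) ⊔ bb := by
    rw [sup_comm, sup_comm x v]
  rw [b6] at b4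
  linarith

theorem pt_bot (s : MSys S N E ι) : Pt s (rbot S) := by
  refine Eventually.of_forall fun k ω ω' _ _ _ hb => ?_
  have h1 : ω = ω' := hb
  rw [h1]

/-- **DEFICIT OF THE ZOOM** -/
theorem dfx_gz [Finite ι] {M : ℕ} {s : MSys S (M + 1) E ι} {w : Fin (M + 1) → ℝ} (hw : ∀ i, 1 ≤ w i) {ρ c e : ℝ}
    (hc : 0 ≤ c) {he : 0 < e} (hwe : ∀ j, w j * c + e ≤ 1) {l : Lab S} (f : Frm s.Q l fun j => w j * c)
    (hl : TLb s c l) {t : MSys (l.ovr e he) (M + 1) E' ι} (ht : Gz s l c e he f.X t) (tot : Tot w s (rbot S))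
    (car : Car w s (rbot S)) (dfx : Dfx w ρ s (rbot S)) : Dfx w ρ t (rbot (l.ovr e he)) := by
  intro b hb hwb X hX g e' he' hwe'
  have hb1 : b ≤ 1 := by nlinarith [hw 0, hwb 0]
  obtain ⟨F, K, hK, hF⟩ := exists_cmf hw hc hb (fun j => (hwb j).le) f ht g
  have hc' : 0 ≤ c + e * b := add_nonneg hc (mul_nonneg he.le hb)
  have hwc' : ∀ i, w i * (c + e * b) < 1 := fun i => by nlinarith [hwe i, hwb i]
  have hr : 0 < e * e' := mul_pos he he'
  have hwr : ∀ i, w i * (c + e * b) + e * e' ≤ 1 := fun i => by nlinarith [hwe i, hwe' i]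
  have hr1 : e * e' ≤ 1 := by nlinarith [hwr 0, hw 0]
  obtain ⟨X', hX'⟩ := car _ hc' hwc'
  obtain ⟨f'⟩ := hX'.fr
  have hL : TLb s (c + e * b) (l.comp e he (Lab.ofZ X)) := tlb_comp ht hl hb hb1 ((tlb_iff t b _).mp hX.kl)
  have hL' : TLb s (c + e * b) (ad (l.comp e he (Lab.ofZ X)) X') := tlb_ad hL ((tlb_iff s _ _).mp hX'.kl)
  have hcel := cel_klb (R := rbot S) (pt_bot s) ((tlb_iff s _ _).mpr hL') hc' hw (tot _ hc' hwc').symm.le
    (frx (adr (l.comp e he (Lab.ofZ X)) X') f') (frx (adl (l.comp e he (Lab.ofZ X)) X') F) hr hr1 hwr le_rfl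
  have hmin := hX'.min _ ((tlb_iff s _ _).mpr hL) ⟨F⟩
  have hnear := near_cell (L := l.comp e he (Lab.ofZ X)) F.X (cpt (Lab.ofZ X) g.X) (r := e * e') hK (by
    filter_upwards [hF, hK.1] with k hk hK0 ω hω j
    rw [abs_sub_comm]
    refine (hk ω hω j).trans (mul_le_mul_of_nonneg_left (S.dl_anti ?_ k) hK0)
    have := mul_le_mul_of_nonneg_left (hwe' j) he.le
    linarith)
  have hd := dfx _ hc' hwc' X' hX' f' (e * e') hr hwr
  have hN := (hnear.add hmin).add hcel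
  have key : ∀ k, h (fc (Setoid.ker (g.X.cellv e' k)) : FL (Lab.ofZ X k).T) (Lab.ofZ X k).v ≤
      h (fc (Setoid.ker (f'.X.cellv (e * e') k)) : FL (Lab.ofZ X' k).T) (Lab.ofZ X' k).v +
        (h (fc (Setoid.ker ((cpt (Lab.ofZ X) g.X).cellv (e * e') k)) : FL ((l.comp e he (Lab.ofZ X)) k).T)
            (fc (Setoid.ker (F.X.cellv (e * e') k))) +
          h (((l.comp e he (Lab.ofZ X)) k).p.map (fc (X' k))) ((l.comp e he (Lab.ofZ X)) k).v +
          h (fc (Setoid.ker ((frx (adl (l.comp e he (Lab.ofZ X)) X') F).X.cellv (e * e') k)) :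
              FL ((ad (l.comp e he (Lab.ofZ X)) X') k).T)
            (((ad (l.comp e he (Lab.ofZ X)) X') k).v ⊔
              fc (Setoid.ker ((frx (adr (l.comp e he (Lab.ofZ X)) X') f').X.cellv (e * e') k)))) := fun k => by
    rw [h_cmp0 (Lab.ofZ X) k, ← cpt_cell (Lab.ofZ X) g.X e' k]
    have a1 := h_five (fc (Setoid.ker ((cpt (Lab.ofZ X) g.X).cellv (e * e') k)) :
      FL ((l.comp e he (Lab.ofZ X)) k).T) (fc (Setoid.ker (F.X.cellv (e * e') k)))
      (((l.comp e he (Lab.ofZ X)) k).p.map (fc (Setoid.ker (f'.X.cellv (e * e') k))))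
      (((l.comp e he (Lab.ofZ X)) k).p.map (fc (X' k))) ((l.comp e he (Lab.ofZ X)) k).v
    have a2 : h (((l.comp e he (Lab.ofZ X)) k).p.map (fc (Setoid.ker (f'.X.cellv (e * e') k))))
      (((l.comp e he (Lab.ofZ X)) k).p.map (fc (X' k))) =
        h (fc (Setoid.ker (f'.X.cellv (e * e') k)) : FL (Lab.ofZ X' k).T) (Lab.ofZ X' k).v :=
      ((l.comp e he (Lab.ofZ X)) k).p.h_map _ _
    rw [a2] at a1
    exact a1
  have u1 : UB fun k => h (fc (Setoid.ker (g.X.cellv e' k)) : FL (Lab.ofZ X k).T) (Lab.ofZ X k).v /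
      ((l.ovr e he).F k).n := ub_cell (T := Lab.sp (Lab.ofZ X)) g.X e' X
  have u2 : UB fun k => h (fc (Setoid.ker (f'.X.cellv (e * e') k)) : FL (Lab.ofZ X' k).T) (Lab.ofZ X' k).v /
      (S.F k).n := ub_cell (T := Lab.sp (Lab.ofZ X')) f'.X (e * e') X'
  have u3 := UB_of_tendsto hN
  have h1 := ul_mono u1 ((u2.add u3).const_mul e⁻¹) (Eventually.of_forall fun k => by
    have hn : (0 : ℝ) < (S.F k).n := (S.F k).pos
    have hn' : ((l.ovr e he).F k).n = e * (S.F k).n := by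
      show e * (l k).T.n = e * (S.F k).n
      rw [(l k).hn]
    rw [hn', ← add_div, ← div_eq_inv_mul, div_div, mul_comm (S.F k).n e]
    exact div_le_div_of_nonneg_right (key k) (by positivity))
  rw [ul_const_mul _ (u2.add u3), ul_add u2 u3] at h1
  have h2 : ul (fun k => (h (fc (Setoid.ker ((cpt (Lab.ofZ X) g.X).cellv (e * e') k)) :
      FL ((l.comp e he (Lab.ofZ X)) k).T) (fc (Setoid.ker (F.X.cellv (e * e') k))) +
          h (((l.comp e he (Lab.ofZ X)) k).p.map (fc (X' k))) ((l.comp e he (Lab.ofZ X)) k).v +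
          h (fc (Setoid.ker ((frx (adl (l.comp e he (Lab.ofZ X)) X') F).X.cellv (e * e') k)) :
              FL ((ad (l.comp e he (Lab.ofZ X)) X') k).T)
            (((ad (l.comp e he (Lab.ofZ X)) X') k).v ⊔
              fc (Setoid.ker ((frx (adr (l.comp e he (Lab.ofZ X)) X') f').X.cellv (e * e') k)))) / (S.F k).n) = 0 :=
    ul_eq hN
  rw [h2, add_zero] at h1
  refine h1.trans ?_
  rw [inv_mul_le_iff₀ he]
  refine hd.trans (le_of_eq (by ring))

end

end Pool.Agent.Helper61.ZMY
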